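import Pool.Agent.Helper52.MA.Defs2

/-!
# Project MA, module MA-12: ccc forcing does not collapse `Ω`
-/

set_option autoImplicit false

namespace Pool.Agent.Helper52.MA

open Set Pool.Agent.Helper33.HM Pool.Agent.Helper33.HMG Pool.Agent.Helper32.HB

universe u

section

variable {P : Type u} [Preorder P] {Ω : Type}

/-- MA-12. -/
theorem noColl_of_ccc (hc : PCCC P) (hu : ¬ Countable Ω) : NoColl P Ω := by
  intro F
  by_contra hne
  obtain ⟨p, hp⟩ := RO.ne_bot_iff.mp hne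
  rw [RO.mem_inf] at hp
  obtain ⟨h1, h2⟩ := hp
  have h1' : ∀ n x y, x ≠ y → ∀ q, q ≤ p → ¬ (q ∈ F n x ∧ q ∈ F n y) := by
    intro n x y hxy q hq hh
    have := RO.mem_iInf.mp (RO.mem_iInf.mp (RO.mem_iInf.mp (RO.mem_iInf.mp h1 n) x) y) hxy
    exact RO.mem_compl.mp this q hq (RO.mem_inf.mpr hh)
  have h2' : ∀ x, ∃ n, ∃ q, q ≤ p ∧ q ∈ F n x := by
    intro x
    have h3 := RO.mem_iInf.mp h2 x
    obtain ⟨q, hq, n, hn⟩ := RO.mem_iSup.mp h3 p le_rfl
    exact ⟨n, q, hq, hn⟩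
  have hX : ∀ n, {x : Ω | ∃ q, q ≤ p ∧ q ∈ F n x}.Countable := by
    intro n
    have hch : ∀ x : {x : Ω | ∃ q, q ≤ p ∧ q ∈ F n x}, ∃ q, q ≤ p ∧ q ∈ F n x.1 := fun x => x.2
    choose q hqp hqF using hch
    have hinj : Function.Injective q := by
      intro x y hxy
      by_contra hne'
      have hne2 : x.1 ≠ y.1 := fun h => hne' (Subtype.ext h)
      exact h1' n x.1 y.1 hne2 (q x) (hqp x) ⟨hqF x, hxy ▸ hqF y⟩
    have hanti : (Set.range q).Countable := by
      refine hc _ ?_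
      rintro _ ⟨x, rfl⟩ _ ⟨y, rfl⟩ hxy ⟨r, hrx, hry⟩
      have hne2 : x.1 ≠ y.1 := fun h => hxy (by rw [Subtype.ext h])
      exact h1' n x.1 y.1 hne2 r (le_trans hrx (hqp x))
        ⟨RO.mem_lower hrx (hqF x), RO.mem_lower hry (hqF y)⟩
    have := hanti.to_subtype
    have h3 : Function.Injective (Set.rangeFactorization q) := fun x y hxy =>
      hinj (congrArg Subtype.val hxy)
    exact h3.countable
  apply hu
  have hall : (⋃ n, {x : Ω | ∃ q, q ≤ p ∧ q ∈ F n x}) = Set.univ :=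
    Set.eq_univ_of_forall fun x => by
      obtain ⟨n, q, hq, hn⟩ := h2' x
      exact Set.mem_iUnion.mpr ⟨n, q, hq, hn⟩
  have hcount := Set.countable_iUnion hX
  rw [hall] at hcount
  exact Set.countable_univ_iff.mp hcount

end

end Pool.Agent.Helper52.MA
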